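import Mathlib

namespace Pool.Agent.Results.MP_1375b8_an.Bdd

open Set

lemma root (μ : ℝ) (h0 : 0 < μ) (h1 : μ < 1) : ∃ t : ℝ, 0 < t ∧ t + μ * (1 - Real.exp t) = 0 := by
  have hc : ContinuousOn (fun t : ℝ => t + μ * (1 - Real.exp t)) (Icc (1 - μ) (2 / μ)) := by
    fun_prop
  have hle : 1 - μ ≤ 2 / μ := by
    rw [le_div_iff₀ h0]; nlinarith
  have ha : 0 ≤ (1 - μ) + μ * (1 - Real.exp (1 - μ)) := by
    have h2 : Real.exp (1 - μ) * μ ≤ 1 := by
      have h3 := Real.add_one_le_exp (μ - 1)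
      have h4 : Real.exp (1 - μ) * Real.exp (μ - 1) = 1 := by
        rw [← Real.exp_add]; simp
      have h5 := Real.exp_pos (1 - μ)
      nlinarith
    nlinarith
  have hb : 2 / μ + μ * (1 - Real.exp (2 / μ)) ≤ 0 := by
    have h3 := Real.quadratic_le_exp_of_nonneg (x := 2 / μ) (by positivity)
    have h4 : μ * (1 + 2 / μ + (2 / μ) ^ 2 / 2) = μ + 2 + 2 / μ := by
      field_simp
    nlinarith [mul_le_mul_of_nonneg_left h3 h0.le]
  obtain ⟨t, ht, h⟩ := intermediate_value_Icc' hle hc ⟨hb, ha⟩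
  exact ⟨t, by linarith [ht.1], h⟩

theorem result : ∀ μ : ℝ, 0 < μ → μ < 1 → ∃ y : ℕ → ℝ, 0 < y 0 ∧
    (∀ n : ℕ, y (2 * n + 1) = y (2 * n) + μ * (1 - Real.exp (y n))) ∧
    (∀ n : ℕ, 1 ≤ n → y (2 * n) = y (2 * n - 1) + μ * (1 - Real.exp (y n))) ∧
    ∃ M : ℝ, ∀ n : ℕ, |y n| ≤ M := by
  intro μ h0 h1
  obtain ⟨t, ht, h⟩ := root μ h0 h1
  refine ⟨fun n => if n = 0 then t else 0, by simpa using ht, ?_, ?_, t, ?_⟩
  · intro n
    rcases Nat.eq_zero_or_pos n with rfl | hn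
    · simp; linarith
    · have : n ≠ 0 := by omega
      simp [this]
  · intro n hn
    have h1 : n ≠ 0 := by omega
    have h2 : 2 * n - 1 ≠ 0 := by omega
    simp [h1, h2]
  · intro n
    by_cases hn : n = 0
    · simp [hn, abs_of_pos ht]
    · simp [hn, ht.le]

end Pool.Agent.Results.MP_1375b8_an.Bdd
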